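import Mathlib
import Pool.Agent.N964.GW.Stm
import Pool.Agent.N707.GXA3

/-!
# GW/L: the integral of the kernel over the left edge
-/

set_option autoImplicit false

namespace Pool.Agent.N499.GWL

open Complex MeasureTheory Filter
open Pool.Agent.N964.GW
open Pool.Agent.N707.GXA3 (wl rf kt kt_neg Iint nw_ne)

/-- the real part of `1 / (a + i y)` -/
lemma re_inv (a y : ℝ) : ((1 : ℂ) / (a + y * I)).re = a / (a ^ 2 + y ^ 2) := by
  rw [one_div, Complex.inv_re, Complex.normSq_apply]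
  simp
  congr 1
  ring

lemma ne0 {a : ℝ} (ha : a ≠ 0) (y : ℝ) : (a : ℂ) + y * I ≠ 0 := by
  intro h
  have := congrArg Complex.re h
  simp at this
  exact ha this

lemma int_sq {a : ℝ} (ha : a ≠ 0) :
    Integrable (fun y : ℝ => a ^ 2 / (a ^ 2 + y ^ 2)) ∧
      ∫ y : ℝ, a ^ 2 / (a ^ 2 + y ^ 2) = |a| * Real.pi := by
  have e : (fun y : ℝ => a ^ 2 / (a ^ 2 + y ^ 2)) = fun y : ℝ => (1 + (y / a) ^ 2)⁻¹ := by
    funext y
    have : (0 : ℝ) < a ^ 2 := by positivity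
    field_simp
  rw [e]
  refine ⟨?_, ?_⟩
  · exact (integrable_inv_one_add_sq).comp_div ha
  · rw [Measure.integral_comp_div (fun y : ℝ => (1 + y ^ 2)⁻¹) a, integral_univ_inv_one_add_sq,
      smul_eq_mul]

lemma int_inv {a : ℝ} (ha : a ≠ 0) : Integrable (fun y : ℝ => 1 / (a ^ 2 + y ^ 2)) := by
  refine ((int_sq ha).1.const_mul (1 / a ^ 2)).congr (Eventually.of_forall fun y => ?_)
  have h1 : (0 : ℝ) < a ^ 2 := by positivity
  have h2 : (0 : ℝ) < a ^ 2 + y ^ 2 := by positivity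
  simp only
  field_simp

lemma int_re {a : ℝ} (ha : a ≠ 0) : Integrable (fun y : ℝ => a / (a ^ 2 + y ^ 2)) ∧
    ∫ y : ℝ, a / (a ^ 2 + y ^ 2) = |a| / a * Real.pi := by
  have e : (fun y : ℝ => a / (a ^ 2 + y ^ 2)) = fun y : ℝ => (1 / a) * (a ^ 2 / (a ^ 2 + y ^ 2)) := by
    funext y
    have h2 : (0 : ℝ) < a ^ 2 + y ^ 2 := by positivity
    field_simp
  rw [e]
  refine ⟨(int_sq ha).1.const_mul _, ?_⟩
  rw [integral_const_mul, (int_sq ha).2]
  ring

lemma norm_inv_sq (a y : ℝ) :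
    ‖(1 : ℂ) / (a + y * I)‖ ^ 2 = 1 / (a ^ 2 + y ^ 2) := by
  rw [norm_div, div_pow, Complex.sq_norm, Complex.sq_norm, Complex.normSq_apply,
    Complex.normSq_apply]
  simp
  ring

/-- the difference of two inverses -/
lemma dif {a b : ℝ} (ha : a ≠ 0) (hb : b ≠ 0) :
    Integrable (fun y : ℝ => (1 : ℂ) / (a + y * I) - 1 / (b + y * I)) ∧
      (∫ y : ℝ, ((1 : ℂ) / (a + y * I) - 1 / (b + y * I))).re =
        |a| / a * Real.pi - |b| / b * Real.pi := by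
  have hI : Integrable (fun y : ℝ => (1 : ℂ) / (a + y * I) - 1 / (b + y * I)) := by
    refine (((int_inv ha).add (int_inv hb)).const_mul (|b - a| / 2)).mono' ?_
      (Eventually.of_forall fun y => ?_)
    · apply Continuous.aestronglyMeasurable
      apply Continuous.sub
      · exact Continuous.div continuous_const (by fun_prop) (ne0 ha)
      · exact Continuous.div continuous_const (by fun_prop) (ne0 hb)
    · have e : (1 : ℂ) / (a + y * I) - 1 / (b + y * I) =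
          ((b - a : ℝ) : ℂ) * ((1 / (a + y * I)) * (1 / (b + y * I))) := by
        have h1 := ne0 ha y
        have h2 := ne0 hb y
        field_simp
        push_cast
        ring
      rw [e, norm_mul, norm_mul, Complex.norm_real, Real.norm_eq_abs]
      have h1 := norm_inv_sq a y
      have h2 := norm_inv_sq b y
      simp only [Pi.add_apply]
      rw [← h1, ← h2]
      have h3 := sq_nonneg (‖(1 : ℂ) / (a + y * I)‖ - ‖(1 : ℂ) / (b + y * I)‖)
      have h4 := abs_nonneg (b - a)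
      nlinarith
  refine ⟨hI, ?_⟩
  have h1 : (∫ y : ℝ, ((1 : ℂ) / (a + y * I) - 1 / (b + y * I))).re =
      ∫ y : ℝ, ((1 : ℂ) / (a + y * I) - 1 / (b + y * I)).re := by
    exact (Complex.reCLM.integral_comp_comm hI).symm
  rw [h1]
  simp only [Complex.sub_re, re_inv]
  rw [integral_sub (int_re ha).1 (int_re hb).1, (int_re ha).2, (int_re hb).2]

/-- the bracket -/
noncomputable def br (s κ y : ℝ) : ℂ :=
  1 / 2 * ((1 : ℂ) / (((κ - 15 / 4 : ℝ) : ℂ) + y * I) - 1 / (((-(5 / 4) - s : ℝ) : ℂ) + y * I)) +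
  1 / 2 * ((1 : ℂ) / (((κ + 5 / 4 : ℝ) : ℂ) + y * I) - 1 / (((-(5 / 4) + s : ℝ) : ℂ) + y * I))

lemma br_int {s κ : ℝ} (hs : 0 < s) (hs1 : s ≤ 1) (hκ : 0 ≤ κ) (hκ1 : κ ≤ 1 / 2) :
    Integrable (br s κ) ∧ (∫ y : ℝ, br s κ y).re = Real.pi := by
  have h1 := dif (a := κ - 15 / 4) (b := -(5 / 4) - s) (by linarith) (by linarith)
  have h2 := dif (a := κ + 5 / 4) (b := -(5 / 4) + s) (by linarith) (by linarith)
  have i1 := h1.1.const_mul (1 / 2 : ℂ)
  have i2 := h2.1.const_mul (1 / 2 : ℂ)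
  refine ⟨i1.add i2, ?_⟩
  unfold br
  rw [integral_add i1 i2, integral_const_mul, integral_const_mul, Complex.add_re]
  have e : ∀ z : ℂ, ((1 / 2 : ℂ) * z).re = 1 / 2 * z.re := by
    intro z
    have : (1 / 2 : ℂ) = ((1 / 2 : ℝ) : ℂ) := by push_cast; rfl
    rw [this, Complex.re_ofReal_mul]
  rw [e, e, h1.2, h2.2, abs_of_neg (by linarith : κ - 15 / 4 < 0),
    abs_of_neg (by linarith : -(5 / 4) - s < 0), abs_of_pos (by linarith : 0 < κ + 5 / 4),
    abs_of_neg (by linarith : -(5 / 4) + s < 0), neg_div, neg_div, neg_div,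
    div_self (by linarith : κ - 15 / 4 ≠ 0), div_self (by linarith : -(5 / 4) - s ≠ 0),
    div_self (by linarith : κ + 5 / 4 ≠ 0), div_self (by linarith : -(5 / 4) + s ≠ 0)]
  ring

lemma H2_eq {l s κ : ℝ} (hl : 1 ≤ l) (hs : 0 < s) (hs1 : s ≤ 1) (hκ : 0 ≤ κ) (hκ1 : κ ≤ 1 / 2)
    (y : ℝ) : H2 l s κ (-(5 / 4) + y * I) =
      (-(1 / (2 * (Real.cosh (l * s) - 1)) : ℝ) : ℂ) *
        (cexp (((-l : ℝ) : ℂ) * wl (-y)) * rf s (-y) - cexp (((0 : ℝ) : ℂ) * wl (-y)) * rf s (-y)) +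
      (c0 l s : ℂ) * br s κ y := by
  have hls : 0 < l * s := by positivity
  have hc : 0 < Real.cosh (l * s) - 1 := by
    have := Real.one_lt_cosh.2 hls.ne'
    linarith
  have a1 := ne0 (a := κ - 15 / 4) (by linarith) y
  have a2 := ne0 (a := κ + 5 / 4) (by linarith) y
  have a3 := ne0 (a := -(5 / 4) - s) (by linarith) y
  have a4 := ne0 (a := -(5 / 4) + s) (by linarith) y
  have hw := nw_ne hs hs1 (-y)
  have ewl : wl (-y) = -(-(5 / 4) + y * I) := by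
    unfold wl
    push_cast
    ring
  set w : ℂ := -(5 / 4) + y * I with hwdef
  have e1 : ((κ - 15 / 4 : ℝ) : ℂ) + y * I = w + κ - 5 / 2 := by rw [hwdef]; push_cast; ring
  have e2 : ((κ + 5 / 4 : ℝ) : ℂ) + y * I = w + κ + 5 / 2 := by rw [hwdef]; push_cast; ring
  have e3 : ((-(5 / 4) - s : ℝ) : ℂ) + y * I = w - s := by rw [hwdef]; push_cast; ring
  have e4 : ((-(5 / 4) + s : ℝ) : ℂ) + y * I = w + s := by rw [hwdef]; push_cast; ring
  unfold br rf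
  rw [e1, e2, e3, e4, ewl]
  rw [e1] at a1
  rw [e2] at a2
  rw [e3] at a3
  rw [e4] at a4
  unfold H2 Hn Kp
  rw [dslope_of_ne _ a4, slope_def_field]
  have hcC : ((Real.cosh (l * s) - 1 : ℝ) : ℂ) ≠ 0 := by exact_mod_cast hc.ne'
  have hc0 : (c0 l s : ℂ) = ((1 - Real.exp (-(l * s)) : ℝ) : ℂ) / ((Real.cosh (l * s) - 1 : ℝ) : ℂ) := by
    rw [← Complex.ofReal_div]
    congr 1
    unfold c0
    rw [eq_div_iff hc.ne', sub_mul, div_mul_cancel₀ _ hc.ne', one_mul, Real.exp_neg,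
      Real.sinh_eq, Real.cosh_eq, Real.exp_neg]
    ring
  rw [hc0]
  have x1 : cexp (l * (w + s)) = cexp (l * w) * cexp (l * s) := by
    rw [← Complex.exp_add]; ring_nf
  have x2 : ((Real.exp (-(l * s)) : ℝ) : ℂ) * cexp (l * s) = 1 := by
    push_cast
    rw [← Complex.exp_add]
    simp
  have x3 : cexp (((-l : ℝ) : ℂ) * -w) = cexp (l * w) := by
    congr 1
    push_cast
    ring
  have x4 : cexp (((0 : ℝ) : ℂ) * -w) = 1 := by simp
  have x5 : (-(1 / (2 * (Real.cosh (l * s) - 1)) : ℝ) : ℂ) =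
      -(1 / (2 * ((Real.cosh (l * s) - 1 : ℝ) : ℂ))) := by
    push_cast
    rfl
  have x6 : ((s * Real.exp (-(l * s)) : ℝ) : ℂ) = s * ((Real.exp (-(l * s)) : ℝ) : ℂ) := by
    push_cast
    rfl
  have x7 : ((1 - Real.exp (-(l * s)) : ℝ) : ℂ) = 1 - ((Real.exp (-(l * s)) : ℝ) : ℂ) := by
    push_cast
    rfl
  have h5 : (w + κ) ^ 2 - 25 / 4 ≠ 0 := by
    have : (w + κ) ^ 2 - 25 / 4 = (w + κ - 5 / 2) * (w + κ + 5 / 2) := by ring
    rw [this]
    exact mul_ne_zero a1 a2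
  have h6 : (s : ℂ) ^ 2 - (-w) ^ 2 ≠ 0 := by
    rw [← ewl]
    exact hw
  rw [x1, x3, x4, x5, x6, x7]
  simp only [mul_zero, Complex.exp_zero, sub_zero]
  generalize ((Real.exp (-(l * s)) : ℝ) : ℂ) = E at x2 ⊢
  generalize cexp (l * s) = E' at x2 ⊢
  generalize cexp (l * w) = Ew
  generalize ((Real.cosh (l * s) - 1 : ℝ) : ℂ) = c at hcC ⊢
  have g1 : (w + κ) / ((w + κ) ^ 2 - 25 / 4) =
      1 / 2 * (1 / (w + κ - 5 / 2) + 1 / (w + κ + 5 / 2)) := by
    have : (w + κ) ^ 2 - 25 / 4 = (w + κ - 5 / 2) * (w + κ + 5 / 2) := by ring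
    have key : ∀ A B : ℂ, A ≠ 0 → B ≠ 0 → (A + B) / 2 / (A * B) = 1 / 2 * (1 / A + 1 / B) := by
      intro A B hA hB
      field_simp
      ring
    rw [this, ← key _ _ a1 a2]
    congr 1
    ring
  have g2 : (s : ℂ) ^ 2 - (-w) ^ 2 = -((w - s) * (w + s)) := by ring
  rw [g1, g2]
  have g3 : (s * E * ((Ew * E' - 1) / (w + s)) - (1 - E)) / c / (w - s) =
      (s * (Ew - E) / (w + s) - (1 - E)) / c / (w - s) := by
    have : s * E * ((Ew * E' - 1) / (w + s)) = s * (Ew - E) / (w + s) := by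
      have : s * E * ((Ew * E' - 1) / (w + s)) = s * (Ew * (E * E') - E) / (w + s) := by ring
      rw [this, x2, mul_one]
    rw [this]
  rw [g3]
  field_simp
  ring

theorem left : S_left := by
  intro l s κ hl hs hs1 hκ hκ1
  have hf : (fun y : ℝ => H2 l s κ (-(5 / 4) + y * I)) = fun y : ℝ =>
      (-(1 / (2 * (Real.cosh (l * s) - 1)) : ℝ) : ℂ) *
        (cexp (((-l : ℝ) : ℂ) * wl (-y)) * rf s (-y) - cexp (((0 : ℝ) : ℂ) * wl (-y)) * rf s (-y)) +
      (c0 l s : ℂ) * br s κ y := funext fun y => H2_eq hl hs hs1 hκ hκ1 y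
  obtain ⟨p1, p2⟩ := Iint hs hs1 (-l)
  obtain ⟨q1, q2⟩ := Iint hs hs1 0
  rw [kt_neg s (by linarith : -l ≤ 0), mul_zero, mul_zero] at p2
  rw [kt_neg s le_rfl, mul_zero, mul_zero] at q2
  obtain ⟨b1, b2⟩ := br_int hs hs1 hκ hκ1
  have P1 : Integrable (fun y : ℝ => cexp (((-l : ℝ) : ℂ) * wl (-y)) * rf s (-y)) := p1.comp_neg
  have Q1 : Integrable (fun y : ℝ => cexp (((0 : ℝ) : ℂ) * wl (-y)) * rf s (-y)) := q1.comp_neg
  have P2 : ∫ y : ℝ, cexp (((-l : ℝ) : ℂ) * wl (-y)) * rf s (-y) = 0 := by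
    rw [integral_neg_eq_self (fun y : ℝ => cexp (((-l : ℝ) : ℂ) * wl y) * rf s y), p2]
  have Q2 : ∫ y : ℝ, cexp (((0 : ℝ) : ℂ) * wl (-y)) * rf s (-y) = 0 := by
    rw [integral_neg_eq_self (fun y : ℝ => cexp (((0 : ℝ) : ℂ) * wl y) * rf s y), q2]
  rw [hf]
  have R1 : Integrable (fun y : ℝ => (-(1 / (2 * (Real.cosh (l * s) - 1)) : ℝ) : ℂ) *
        (cexp (((-l : ℝ) : ℂ) * wl (-y)) * rf s (-y) -
          cexp (((0 : ℝ) : ℂ) * wl (-y)) * rf s (-y))) := (P1.sub Q1).const_mul _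
  have R2 := b1.const_mul (c0 l s : ℂ)
  refine ⟨R1.add R2, ?_⟩
  have R3 : ∫ y : ℝ, (-(1 / (2 * (Real.cosh (l * s) - 1)) : ℝ) : ℂ) *
        (cexp (((-l : ℝ) : ℂ) * wl (-y)) * rf s (-y) - cexp (((0 : ℝ) : ℂ) * wl (-y)) * rf s (-y)) = 0 := by
    rw [integral_const_mul, integral_sub P1 Q1, P2, Q2]
    simp
  rw [integral_add R1 R2, R3, zero_add, integral_const_mul, Complex.re_ofReal_mul, b2]
  ring

end Pool.Agent.N499.GWL
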